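import Pool.Agent.Lib.MZDep.DDefs

/-! MP_301213_nt, depth-filtered growth: the number of words of `DT w d` and of `DTop w d`, and the inequality
`V a e * V b f ≤ V (a + b) (e + f)` for `V n d = ∑_(j ≤ d) C(n, j)`. -/

open HofPers Finset Pool.MZDim Pool.MZExp

namespace Pool.MZDep

/-- the number of subsets with at most `d` elements of a set with `n` elements -/
def V (n d : ℕ) : ℕ := ∑ j ∈ range (d + 1), n.choose j

theorem V_zero (n : ℕ) : V n 0 = 1 := by
  unfold V
  rw [Finset.sum_range_one, Nat.choose_zero_right]

theorem V_zero_left (d : ℕ) : V 0 d = 1 := by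
  unfold V
  rw [Finset.sum_range_succ', Nat.choose_zero_right, Finset.sum_eq_zero]
  intro j _
  exact Nat.choose_zero_succ j

theorem V_succ (n d : ℕ) : V (n + 1) (d + 1) = V n (d + 1) + V n d := by
  unfold V
  rw [Finset.sum_range_succ' (fun j => (n + 1).choose j) (d + 1),
    Finset.sum_range_succ' (fun j => n.choose j) (d + 1), Nat.choose_zero_right,
    Nat.choose_zero_right]
  have h : ∀ j ∈ range (d + 1), (n + 1).choose (j + 1) = n.choose j + n.choose (j + 1) :=
    fun j _ => Nat.choose_succ_succ n j
  rw [Finset.sum_congr rfl h, Finset.sum_add_distrib]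
  omega

theorem V_pos (n d : ℕ) : 1 ≤ V n d := by
  unfold V
  rw [Finset.sum_range_succ', Nat.choose_zero_right]
  omega

theorem V_mono_right {n d e : ℕ} (h : d ≤ e) : V n d ≤ V n e := by
  unfold V
  exact Finset.sum_le_sum_of_subset (Finset.range_mono (by omega))

theorem V_mono_left {m n : ℕ} (d : ℕ) (h : m ≤ n) : V m d ≤ V n d := by
  unfold V
  exact Finset.sum_le_sum fun j _ => Nat.choose_le_choose j h

theorem V_mul (a e b f : ℕ) : V a e * V b f ≤ V (a + b) (e + f) := by
  induction b generalizing f with
  | zero =>
    rw [V_zero_left, mul_one, add_zero]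
    exact V_mono_right (by omega)
  | succ b ih =>
    cases f with
    | zero =>
      rw [V_zero, mul_one, add_zero]
      exact V_mono_left e (by omega)
    | succ f =>
      rw [V_succ, ← add_assoc, ← add_assoc, V_succ, mul_add]
      exact Nat.add_le_add (ih (f + 1)) (ih f)

private def dup : List ℕ → List ℕ
  | [] => []
  | (a :: l) => (a + 1) :: l

/-- the admissible words of weight `n + 2` and length `e + 1` -/
private def DS : ℕ → ℕ → Finset (List ℕ)
  | 0, 0 => {[2]}
  | 0, _ + 1 => ∅
  | n + 1, 0 => (DS n 0).image dup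
  | n + 1, e + 1 => (DS n (e + 1)).image dup ∪ (DS n e).image (fun l => 1 :: l)

private theorem dcard_ge {l : List ℕ} : ∀ {b : ℕ}, Adm1 (b :: l) → l.length + 2 ≤ (b :: l).sum := by
  induction l with
  | nil =>
    intro b hb
    have := adm1_single.1 hb
    simpa using this
  | cons c l ih =>
    intro b hb
    obtain ⟨h1, h2⟩ := adm1_cons_cons.1 hb
    have := ih h2
    rw [List.sum_cons, List.length_cons]
    omega

private theorem mem_up {n e : ℕ} (ih : ∀ l : List ℕ, l ∈ DS n e ↔ Adm1 l ∧ l.length = e + 1 ∧
    l.sum = n + 2) (l : List ℕ) : l ∈ (DS n e).image dup ↔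
      ∃ a m, l = (a + 1) :: m ∧ Adm1 (a :: m) ∧ m.length = e ∧ a + m.sum = n + 2 := by
  rw [Finset.mem_image]
  constructor
  · rintro ⟨m, hm, rfl⟩
    obtain ⟨h1, h2, h3⟩ := (ih m).1 hm
    match m, h2 with
    | a :: m, h2 =>
      rw [List.length_cons] at h2
      rw [List.sum_cons] at h3
      exact ⟨a, m, rfl, h1, by omega, h3⟩
  · rintro ⟨a, m, rfl, h1, h2, h3⟩
    exact ⟨a :: m, (ih _).2 ⟨h1, by rw [List.length_cons, h2], by rw [List.sum_cons, h3]⟩, rfl⟩

private theorem mem_DS (n : ℕ) : ∀ (e : ℕ) (l : List ℕ), l ∈ DS n e ↔ Adm1 l ∧ l.length = e + 1 ∧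
    l.sum = n + 2 := by
  induction n with
  | zero =>
    intro e l
    cases e with
    | zero =>
      have hD : DS 0 0 = {[2]} := rfl
      rw [hD, Finset.mem_singleton]
      constructor
      · rintro rfl
        exact ⟨adm1_single.2 le_rfl, rfl, rfl⟩
      · rintro ⟨h1, h2, h3⟩
        match l, h2 with
        | [a], _ =>
          have : a = 2 := by simpa using h3
          rw [this]
    | succ e =>
      have hD : DS 0 (e + 1) = ∅ := rfl
      rw [hD]
      constructor
      · intro h
        exact absurd h (Finset.notMem_empty l)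
      · rintro ⟨h1, h2, h3⟩
        exfalso
        match l, h2 with
        | a :: l, h2 =>
          have := dcard_ge h1
          rw [List.length_cons] at h2
          omega
  | succ n ih =>
    intro e l
    have hup : ∀ a m, Adm1 (a :: m) → Adm1 ((a + 1) :: m) := by
      intro a m h
      cases m with
      | nil =>
        have := adm1_single.1 h
        exact adm1_single.2 (by omega)
      | cons b m =>
        obtain ⟨h1, h2⟩ := adm1_cons_cons.1 h
        exact adm1_cons_cons.2 ⟨by omega, h2⟩
    cases e with
    | zero =>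
      have hD : DS (n + 1) 0 = (DS n 0).image dup := rfl
      rw [hD, mem_up (ih 0) l]
      constructor
      · rintro ⟨a, m, rfl, h1, h2, h3⟩
        refine ⟨hup a m h1, by rw [List.length_cons, h2], ?_⟩
        rw [List.sum_cons]
        omega
      · rintro ⟨h1, h2, h3⟩
        match l, h2 with
        | [a], _ =>
          have ha : a = n + 3 := by simpa using h3
          exact ⟨n + 2, [], by rw [ha], adm1_single.2 (by omega), rfl, by simp⟩
    | succ e =>
      have hD : DS (n + 1) (e + 1) =
        (DS n (e + 1)).image dup ∪ (DS n e).image (fun l => 1 :: l) := rfl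
      rw [hD, Finset.mem_union, mem_up (ih (e + 1)) l, Finset.mem_image]
      constructor
      · rintro (⟨a, m, rfl, h1, h2, h3⟩ | ⟨m, hm, rfl⟩)
        · refine ⟨hup a m h1, by rw [List.length_cons, h2], ?_⟩
          rw [List.sum_cons]
          omega
        · obtain ⟨h1, h2, h3⟩ := (ih e m).1 hm
          match m, h2 with
          | b :: m, h2 =>
            refine ⟨adm1_cons_cons.2 ⟨le_rfl, h1⟩, by rw [List.length_cons, h2], ?_⟩
            rw [List.sum_cons, h3]
            omega
      · rintro ⟨h1, h2, h3⟩
        match l, h2 with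
        | a :: b :: m, h2 =>
          obtain ⟨h4, h5⟩ := adm1_cons_cons.1 h1
          rw [List.sum_cons] at h3
          rw [List.length_cons] at h2
          rcases Nat.lt_or_ge 1 a with h6 | h6
          · obtain ⟨c, rfl⟩ : ∃ c, a = c + 1 := ⟨a - 1, by omega⟩
            exact Or.inl ⟨c, b :: m, rfl, adm1_cons_cons.2 ⟨by omega, h5⟩, by omega, by omega⟩
          · have : a = 1 := by omega
            subst this
            exact Or.inr ⟨b :: m, (ih e _).2 ⟨h5, by omega, by omega⟩, rfl⟩

private theorem dup_inj {n e : ℕ} : Set.InjOn dup (DS n e : Set (List ℕ)) := by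
  intro x hx y hy h
  have hx' := ((mem_DS n e x).1 hx).2.1
  have hy' := ((mem_DS n e y).1 hy).2.1
  match x, y, hx', hy' with
  | a :: l, b :: m, _, _ =>
    simp only [dup, List.cons.injEq] at h
    obtain ⟨h1, h2⟩ := h
    rw [h2, Nat.add_right_cancel h1]

private theorem card_DS (n : ℕ) : ∀ e : ℕ, (DS n e).card = n.choose e := by
  induction n with
  | zero =>
    intro e
    cases e with
    | zero => rfl
    | succ e => rfl
  | succ n ih =>
    intro e
    cases e with
    | zero =>
      have hD : DS (n + 1) 0 = (DS n 0).image dup := rfl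
      rw [hD, Finset.card_image_of_injOn dup_inj, ih, Nat.choose_zero_right,
        Nat.choose_zero_right]
    | succ e =>
      have hD : DS (n + 1) (e + 1) =
        (DS n (e + 1)).image dup ∪ (DS n e).image (fun l => 1 :: l) := rfl
      rw [hD, Finset.card_union_of_disjoint, Finset.card_image_of_injOn dup_inj,
        Finset.card_image_of_injective _ (List.cons_injective), ih, ih, Nat.choose_succ_succ']
      · omega
      · rw [Finset.disjoint_left]
        intro x hx hx'
        obtain ⟨a, m, rfl, h1, h2, h3⟩ := (mem_up (mem_DS n (e + 1)) x).1 hx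
        obtain ⟨q, hq, h⟩ := Finset.mem_image.1 hx'
        simp only [List.cons.injEq] at h
        have := h1.head
        omega

private theorem sum_choose_range (m e : ℕ) : ∑ n ∈ range m, n.choose e = m.choose (e + 1) := by
  induction m with
  | zero => simp
  | succ m ih =>
    rw [Finset.sum_range_succ, ih, Nat.choose_succ_succ']
    omega

/-- `#DT w d = ∑_(j ≤ d) C(w - 1, j)` -/
theorem card_DT (w d : ℕ) : (DT w d).card = V (w - 1) d := by
  classical
  have h1 : DT w d = insert [] ((range (w - 1) ×ˢ range d).biUnion fun p => DS p.1 p.2) := by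
    ext l
    rw [mem_DT, Finset.mem_insert, Finset.mem_biUnion]
    constructor
    · rintro ⟨h1, h2, h3⟩
      cases l with
      | nil => exact Or.inl rfl
      | cons a l =>
        right
        have h4 := dcard_ge h1
        refine ⟨((a :: l).sum - 2, l.length), ?_, (mem_DS _ _ _).2 ⟨h1, by rw [List.length_cons], ?_⟩⟩
        · rw [Finset.mem_product, Finset.mem_range, Finset.mem_range]
          rw [List.length_cons] at h3
          constructor <;> omega
        · omega
    · rintro (rfl | ⟨p, hp, hl⟩)
      · exact ⟨adm1_nil, by simp, by simp⟩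
      · obtain ⟨h1, h2, h3⟩ := (mem_DS _ _ _).1 hl
        rw [Finset.mem_product, Finset.mem_range, Finset.mem_range] at hp
        exact ⟨h1, by omega, by omega⟩
  rw [h1, Finset.card_insert_of_notMem, Finset.card_biUnion]
  · simp only [card_DS]
    rw [Finset.sum_product_right]
    simp only [sum_choose_range]
    unfold V
    rw [Finset.sum_range_succ', Nat.choose_zero_right]
  · intro p _ q _ hpq
    rw [Function.onFun, Finset.disjoint_left]
    intro l h1 h2
    obtain ⟨_, h3, h4⟩ := (mem_DS _ _ _).1 h1
    obtain ⟨_, h5, h6⟩ := (mem_DS _ _ _).1 h2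
    exact hpq (Prod.ext (by omega) (by omega))
  · rw [Finset.mem_biUnion]
    rintro ⟨p, _, hl⟩
    have := ((mem_DS _ _ _).1 hl).2.1
    simp at this

/-- `#DTop w d = ∑_(j ≤ d) C(w - 2, j)` -/
theorem card_DTop (w d : ℕ) : (DTop (w + 2) d).card = V w d := by
  cases d with
  | zero =>
    have h : DTop (w + 2) 0 = {[]} := by
      ext l
      unfold DTop
      rw [mem_filter, mem_DT, Finset.mem_singleton]
      constructor
      · rintro ⟨⟨_, _, h⟩, _⟩
        exact List.eq_nil_of_length_eq_zero (by omega)
      · rintro rfl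
        exact ⟨⟨adm1_nil, by simp, by simp⟩, by simp⟩
    rw [h, V_zero]
    rfl
  | succ d =>
    have h1 : (DT (w + 2) (d + 1)).card = (DTop (w + 2) (d + 1)).card + (DT (w + 1) d).card := by
      have h2 : (DT (w + 2) (d + 1)).filter (fun l => ¬ (l.sum = w + 2 ∨ l.length = d + 1)) =
          DT (w + 1) d := by
        ext l
        rw [mem_filter, mem_DT, mem_DT]
        constructor
        · rintro ⟨⟨h3, h4, h5⟩, h6⟩
          push Not at h6
          obtain ⟨h7, h8⟩ := h6
          exact ⟨h3, by omega, by omega⟩
        · rintro ⟨h3, h4, h5⟩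
          refine ⟨⟨h3, by omega, by omega⟩, ?_⟩
          push Not
          constructor <;> omega
      rw [← h2, DTop, Finset.card_filter_add_card_filter_not]
    rw [card_DT, card_DT] at h1
    have e1 : w + 2 - 1 = w + 1 := by omega
    have e2 : w + 1 - 1 = w := by omega
    rw [e1, e2, V_succ] at h1
    omega

end Pool.MZDep
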