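import Pool.Agent.Lib.MZExp.VDefs
import Pool.Agent.Lib.MZExp.XLower

/-! MP_301213_nt, DEPTH-FILTERED growth (helper22, helper63, after helper56): definitions.

`DT w d`: the admissible words of weight at most `w` and length (depth) at most `d`. -/

open HofPers Finset Pool.MZDim Pool.MZExp

namespace Pool.MZDep

/-- all admissible words of weight at most `w` and length at most `d` -/
noncomputable def DT (w d : ℕ) : Finset (List ℕ) := (WT w).filter fun l => l.length ≤ d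

theorem mem_DT {w d : ℕ} {l : List ℕ} : l ∈ DT w d ↔ Adm1 l ∧ l.sum ≤ w ∧ l.length ≤ d := by
  unfold DT
  rw [mem_filter, mem_WT, and_assoc]

/-- the words of `DT w d` of weight `w` or of length `d` -/
noncomputable def DTop (w d : ℕ) : Finset (List ℕ) :=
  (DT w d).filter fun l => l.sum = w ∨ l.length = d

theorem TC1_DT (w d : ℕ) : TC1 (DT w d) := by
  refine ⟨mem_DT.2 ⟨adm1_nil, by simp, by simp⟩, fun l hl => (mem_DT.1 hl).1, fun a l hl => ?_⟩
  obtain ⟨h1, h2, h3⟩ := mem_DT.1 hl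
  rw [List.sum_cons] at h2
  rw [List.length_cons] at h3
  exact mem_DT.2 ⟨h1.tail, by omega, by omega⟩

theorem DTop_top (w d : ℕ) : ∀ v ∈ DTop w d, v ∈ DT w d ∧ ∀ u, v ++ u ∈ DT w d → u = [] := by
  intro v hv
  unfold DTop at hv
  obtain ⟨h1, h2⟩ := mem_filter.1 hv
  refine ⟨h1, fun u hu => ?_⟩
  obtain ⟨h3, h4, h5⟩ := mem_DT.1 hu
  rw [List.sum_append] at h4
  rw [List.length_append] at h5
  cases u with
  | nil => rfl
  | cons a u =>
    have h6 := h3.1 a (List.mem_append_right _ List.mem_cons_self)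
    rw [List.sum_cons] at h4
    rw [List.length_cons] at h5
    omega

/-- `Rep1` with words of length at most `d` -/
def RepD (n k d : ℕ) (B x : ℝ) : Prop :=
  ∃ b : List ℕ →₀ ℚ, (∀ l ∈ b.support, Adm1 l ∧ l.sum ≤ k ∧ l.length ≤ d) ∧
    (∀ l, ∃ z : ℤ, ((Nat.lcmUpto n : ℕ) : ℚ) ^ k * b l = z) ∧
    ∑ l ∈ b.support, |((b l : ℚ) : ℝ)| ≤ B ∧
    ∑ l ∈ b.support, ((b l : ℚ) : ℝ) * T l 0 = x

end Pool.MZDep
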