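import Pool.Agent.Lib.MZDep.DMain

/-! MP_301213_nt, depth-filtered growth: FIXED depth `d`, `dim Fil_d Z_k ≥ c k^(⌊2d/3⌋/2 - 2)`, which tends to
infinity with `k` for every `d ≥ 8`.

Choice of the parameters, `q = ⌊2d/3⌋`: `d1 = q - 1`, `d2 = d - q`, `s = k^(q / (2 d2)) ≤ k`,
`w' = ⌊s / 4⌋`, `w = k - 5 - w'`. -/

open HofPers Finset Pool.MZDim Pool.MZExp Filter Topology

namespace Pool.MZDep

theorem V_le_pow (n d : ℕ) : V n d ≤ (n + 1) ^ d := by
  induction n generalizing d with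
  | zero => rw [V_zero_left, zero_add, one_pow]
  | succ n ih =>
    cases d with
    | zero => rw [V_zero, pow_zero]
    | succ d =>
      rw [V_succ]
      calc V n (d + 1) + V n d ≤ (n + 1) ^ (d + 1) + (n + 1) ^ d := Nat.add_le_add (ih _) (ih _)
        _ = (n + 1) ^ d * (n + 2) := by ring
        _ ≤ (n + 2) ^ d * (n + 2) := Nat.mul_le_mul_right _ (Nat.pow_le_pow_left (by omega) d)
        _ = (n + 1 + 1) ^ (d + 1) := by ring

theorem V_ge_pow (n d : ℕ) : ((n + 1 - d : ℕ) : ℝ) ^ d / (d.factorial : ℝ) ≤ (V n d : ℝ) := by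
  refine (Nat.pow_le_choose d n).trans ?_
  have h : n.choose d ≤ V n d := by
    unfold V
    exact Finset.single_le_sum (f := fun j => n.choose j) (fun _ _ => Nat.zero_le _)
      (Finset.mem_range.2 (Nat.lt_succ_self d))
  exact_mod_cast h

/-- one weight `k`, all choices: `s ≤ k` real, `w' = ⌊s / 4⌋` -/
private theorem fix_one (d1 d2 k : ℕ) (s : ℝ) (hs0 : 8 * (d2 : ℝ) + 16 ≤ s) (hsk : s ≤ k)
    (hk : 20 + 4 * d1 ≤ k) :
    ((k : ℝ) / 2) ^ d1 / (d1.factorial : ℝ) ≤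
      4 * (k * (Module.finrank ℚ (ZD k (d1 + d2 + 1)) : ℝ)) * s ^ d2 ∨
    (s / 8) ^ d2 / (d2.factorial : ℝ) ≤
      432 * k * (k * (Module.finrank ℚ (ZD k (d1 + d2 + 1)) : ℝ)) := by
  have hd2 : (0 : ℝ) ≤ d2 := Nat.cast_nonneg _
  have hs : (0 : ℝ) ≤ s := by linarith
  obtain ⟨w', hw'⟩ : ∃ w', w' = ⌊s / 4⌋₊ := ⟨_, rfl⟩
  have h1 : (w' : ℝ) ≤ s / 4 := by
    rw [hw']
    exact Nat.floor_le (by positivity)
  have h2 : s / 4 < (w' : ℝ) + 1 := by
    rw [hw']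
    exact Nat.lt_floor_add_one _
  have h3 : 4 * w' ≤ k := by
    have : (4 : ℝ) * w' ≤ k := by linarith
    exact_mod_cast this
  obtain ⟨w, hw⟩ : ∃ w, w = k - 5 - w' := ⟨_, rfl⟩
  have h4 : w + (w' + 2) + 1 + 2 = k := by omega
  have h := either_HU w w' d1 d2
  set r := Module.finrank ℚ (HU (DT (w + (w' + 2) + 1) (d1 + d2))) with hr
  have hr1 : 1 ≤ r := one_le_HU _ _
  have h5 : r ≤ (w + (w' + 2) + 1 + 1) * Module.finrank ℚ (ZD k (d1 + d2 + 1)) :=
    finrank_HU_pass (K := w + (w' + 2) + 1) (k := k) (d := d1 + d2) (by omega)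
  set D := Module.finrank ℚ (ZD k (d1 + d2 + 1)) with hD
  have h6 : r ≤ k * D := h5.trans (Nat.mul_le_mul_right _ (by omega))
  have h6' : (r : ℝ) ≤ k * D := by exact_mod_cast h6
  rcases h with h7 | h7
  · left
    have h8 : V (w - 1) d1 ≤ 4 * r * V (w' + 1) d2 := by
      have h9 : 1 * 1 ≤ r * V (w' + 1) d2 := Nat.mul_le_mul hr1 (V_pos _ _)
      calc V (w - 1) d1 ≤ 2 * (r * V (w' + 1) d2 + 1) := h7
        _ ≤ 2 * (r * V (w' + 1) d2 + r * V (w' + 1) d2) := by omega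
        _ = _ := by ring
    have h8' : (V (w - 1) d1 : ℝ) ≤ 4 * r * V (w' + 1) d2 := by exact_mod_cast h8
    have h9 : (V (w' + 1) d2 : ℝ) ≤ s ^ d2 := by
      have h10 : (V (w' + 1) d2 : ℝ) ≤ ((w' : ℝ) + 1 + 1) ^ d2 := by
        have := V_le_pow (w' + 1) d2
        exact_mod_cast this
      refine h10.trans (pow_le_pow_left₀ (by positivity) ?_ _)
      linarith
    have h10 : ((k : ℝ) / 2) ^ d1 ≤ ((w - 1 + 1 - d1 : ℕ) : ℝ) ^ d1 := by
      refine pow_le_pow_left₀ (by positivity) ?_ _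
      have h11 : k ≤ 2 * (w - 1 + 1 - d1) := by omega
      have h12 : (k : ℝ) ≤ 2 * ((w - 1 + 1 - d1 : ℕ) : ℝ) := by exact_mod_cast h11
      linarith
    calc ((k : ℝ) / 2) ^ d1 / (d1.factorial : ℝ)
        ≤ ((w - 1 + 1 - d1 : ℕ) : ℝ) ^ d1 / (d1.factorial : ℝ) :=
          div_le_div_of_nonneg_right h10 (by positivity)
      _ ≤ (V (w - 1) d1 : ℝ) := V_ge_pow _ _
      _ ≤ 4 * r * V (w' + 1) d2 := h8'
      _ ≤ 4 * (k * D) * s ^ d2 := by
          refine mul_le_mul (by linarith) h9 (by positivity) (by positivity)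
  · right
    have h7' : (V w' d2 : ℝ) ≤ 144 * r * (3 * k) := by
      have h8 : V w' d2 ≤ 144 * r * (3 * k) :=
        h7.le.trans (Nat.mul_le_mul_left _ (by omega))
      exact_mod_cast h8
    have h8 : (s / 8) ^ d2 ≤ ((w' + 1 - d2 : ℕ) : ℝ) ^ d2 := by
      refine pow_le_pow_left₀ (by positivity) ?_ _
      have h9 : (w' : ℝ) + 1 - d2 ≤ ((w' + 1 - d2 : ℕ) : ℝ) := by
        have h10 : w' + 1 ≤ (w' + 1 - d2) + d2 := by omega
        have h11 : (w' : ℝ) + 1 ≤ ((w' + 1 - d2 : ℕ) : ℝ) + d2 := by exact_mod_cast h10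
        linarith
      linarith
    calc (s / 8) ^ d2 / (d2.factorial : ℝ)
        ≤ ((w' + 1 - d2 : ℕ) : ℝ) ^ d2 / (d2.factorial : ℝ) :=
          div_le_div_of_nonneg_right h8 (by positivity)
      _ ≤ (V w' d2 : ℝ) := V_ge_pow _ _
      _ ≤ 144 * r * (3 * k) := h7'
      _ ≤ 144 * (k * D) * (3 * k) := by
          refine mul_le_mul_of_nonneg_right (by linarith) (by positivity)
      _ = _ := by ring

/-- FIXED DEPTH: `dim Fil_d Z_k ≥ c k^(⌊2d/3⌋/2 - 2)` for all `k ≥ 2` -/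
theorem dim_fixed (d : ℕ) (hd : 1 ≤ d) : ∃ c : ℝ, 0 < c ∧ ∀ k : ℕ, 2 ≤ k →
    c * (k : ℝ) ^ (((2 * d / 3 : ℕ) : ℝ) / 2 - 2) ≤ (Module.finrank ℚ (ZD k d) : ℝ) := by
  obtain ⟨q, hq⟩ : ∃ q, q = 2 * d / 3 := ⟨_, rfl⟩
  rw [← hq]
  rcases Nat.lt_or_ge q 5 with h | h
  · refine ⟨1, one_pos, fun k hk => ?_⟩
    have h1 : (1 : ℝ) ≤ (k : ℝ) := by exact_mod_cast (by omega : 1 ≤ k)
    have h2 : (q : ℝ) ≤ 4 := by exact_mod_cast (by omega : q ≤ 4)
    have h3 : (k : ℝ) ^ ((q : ℝ) / 2 - 2) ≤ 1 :=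
      Real.rpow_le_one_of_one_le_of_nonpos h1 (by linarith)
    have h4 : (1 : ℝ) ≤ (Module.finrank ℚ (ZD k d) : ℝ) := by exact_mod_cast one_le_ZD hk hd
    linarith
  · obtain ⟨d1, hd1⟩ : ∃ d1, d1 = q - 1 := ⟨_, rfl⟩
    obtain ⟨d2, hd2⟩ : ∃ d2, d2 = d - q := ⟨_, rfl⟩
    have e1 : d1 + d2 + 1 = d := by omega
    have e2 : q ≤ 2 * d2 := by omega
    have e3 : 1 ≤ d2 := by omega
    have hd20 : (0 : ℝ) < d2 := by exact_mod_cast e3
    obtain ⟨θ, hθ⟩ : ∃ θ : ℝ, θ = (q : ℝ) / (2 * d2) := ⟨_, rfl⟩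
    have hq0 : (0 : ℝ) < q := by exact_mod_cast (by omega : 0 < q)
    have hθ0 : 0 < θ := by
      rw [hθ]
      positivity
    have hθ1 : θ ≤ 1 := by
      rw [hθ, div_le_one (by positivity)]
      exact_mod_cast e2
    have hlim := (tendsto_rpow_atTop hθ0).comp (tendsto_natCast_atTop_atTop (R := ℝ))
    obtain ⟨k1, hk1⟩ := Filter.eventually_atTop.1 (hlim.eventually_ge_atTop (8 * (d2 : ℝ) + 16))
    obtain ⟨k0, hk0⟩ : ∃ k0, k0 = k1 + (20 + 4 * d1) := ⟨_, rfl⟩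
    obtain ⟨c1, hc1⟩ : ∃ c1 : ℝ, c1 = min (1 / (2 ^ d1 * 4 * (d1.factorial : ℝ)))
      (1 / (8 ^ d2 * 432 * (d2.factorial : ℝ))) := ⟨_, rfl⟩
    have hf1 : (0 : ℝ) < (d1.factorial : ℝ) := by exact_mod_cast d1.factorial_pos
    have hf2 : (0 : ℝ) < (d2.factorial : ℝ) := by exact_mod_cast d2.factorial_pos
    have hc10 : 0 < c1 := by
      rw [hc1]
      exact lt_min (by positivity) (by positivity)
    obtain ⟨E, hE⟩ : ∃ E : ℝ, E = (q : ℝ) / 2 - 2 := ⟨_, rfl⟩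
    have hE0 : 0 < E := by
      have : (5 : ℝ) ≤ q := by exact_mod_cast h
      rw [hE]
      linarith
    have hk0pos : (0 : ℝ) < (k0 : ℝ) := by exact_mod_cast (by omega : 0 < k0)
    have hkE : 0 < (k0 : ℝ) ^ E := Real.rpow_pos_of_pos hk0pos E
    rw [← hE]
    refine ⟨min c1 (((k0 : ℝ) ^ E)⁻¹), lt_min hc10 (inv_pos.2 hkE), fun k hk => ?_⟩
    have hkr : (0 : ℝ) < (k : ℝ) := by exact_mod_cast (by omega : 0 < k)
    rcases Nat.lt_or_ge k k0 with hlt | hge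
    · have h1 : (k : ℝ) ^ E ≤ (k0 : ℝ) ^ E :=
        Real.rpow_le_rpow hkr.le (by exact_mod_cast hlt.le) hE0.le
      have h2 : (1 : ℝ) ≤ (Module.finrank ℚ (ZD k d) : ℝ) := by exact_mod_cast one_le_ZD hk hd
      calc min c1 (((k0 : ℝ) ^ E)⁻¹) * (k : ℝ) ^ E ≤ ((k0 : ℝ) ^ E)⁻¹ * (k0 : ℝ) ^ E :=
            mul_le_mul (min_le_right _ _) h1 (Real.rpow_nonneg hkr.le _) (inv_pos.2 hkE).le
        _ = 1 := inv_mul_cancel₀ hkE.ne'
        _ ≤ _ := h2
    · obtain ⟨s, hs⟩ : ∃ s : ℝ, s = (k : ℝ) ^ θ := ⟨_, rfl⟩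
      have hs1 : 8 * (d2 : ℝ) + 16 ≤ s := by
        rw [hs]
        exact hk1 k (by omega)
      have hs0 : 0 < s := by linarith
      have hsk : s ≤ k := by
        rw [hs]
        calc (k : ℝ) ^ θ ≤ (k : ℝ) ^ (1 : ℝ) :=
              Real.rpow_le_rpow_of_exponent_le (by exact_mod_cast (by omega : 1 ≤ k)) hθ1
          _ = k := Real.rpow_one _
      have hsp : s ^ d2 = (k : ℝ) ^ ((q : ℝ) / 2) := by
        rw [hs, ← Real.rpow_natCast, ← Real.rpow_mul hkr.le]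
        congr 1
        rw [hθ]
        field_simp
      have hone := fix_one d1 d2 k s hs1 hsk (by omega)
      rw [e1] at hone
      set D := Module.finrank ℚ (ZD k d) with hD
      have hE2 : (k : ℝ) ^ E * k ^ 2 = (k : ℝ) ^ ((q : ℝ) / 2) := by
        rw [← Real.rpow_natCast (k : ℝ) 2, ← Real.rpow_add hkr]
        congr 1
        rw [hE]
        push_cast
        ring
      have hmin : min c1 (((k0 : ℝ) ^ E)⁻¹) * (k : ℝ) ^ E ≤ c1 * (k : ℝ) ^ E :=
        mul_le_mul_of_nonneg_right (min_le_left _ _) (Real.rpow_nonneg hkr.le _)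
      refine hmin.trans ?_
      have hX : 0 < (k : ℝ) ^ E := Real.rpow_pos_of_pos hkr E
      rcases hone with h1 | h1
      · have hd1p : (k : ℝ) ^ d1 = (k : ℝ) ^ E * k * (k : ℝ) ^ ((q : ℝ) / 2) := by
          have h2 : (k : ℝ) ^ E * k = (k : ℝ) ^ ((q : ℝ) / 2 - 1) := by
            nth_rewrite 2 [← Real.rpow_one (k : ℝ)]
            rw [← Real.rpow_add hkr]
            congr 1
            rw [hE]
            ring
          rw [h2, ← Real.rpow_add hkr, ← Real.rpow_natCast]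
          congr 1
          have h3 : (d1 : ℝ) = q - 1 := by
            have : d1 + 1 = q := by omega
            have h4 : (d1 : ℝ) + 1 = q := by exact_mod_cast this
            linarith
          rw [h3]
          ring
        have hc : c1 ≤ 1 / (2 ^ d1 * 4 * (d1.factorial : ℝ)) := by
          rw [hc1]
          exact min_le_left _ _
        refine (mul_le_mul_of_nonneg_right hc hX.le).trans ?_
        rw [hsp, div_pow, hd1p] at h1
        have hY : 0 < (k : ℝ) ^ ((q : ℝ) / 2) := Real.rpow_pos_of_pos hkr _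
        rw [one_div, inv_mul_le_iff₀ (by positivity)]
        rw [div_div, div_le_iff₀ (by positivity)] at h1
        have h5 : (k : ℝ) ^ E * (k * (k : ℝ) ^ ((q : ℝ) / 2)) ≤
            (2 ^ d1 * 4 * (d1.factorial : ℝ) * D) * (k * (k : ℝ) ^ ((q : ℝ) / 2)) := by
          calc (k : ℝ) ^ E * (k * (k : ℝ) ^ ((q : ℝ) / 2))
              = (k : ℝ) ^ E * k * (k : ℝ) ^ ((q : ℝ) / 2) := by ring
            _ ≤ 4 * (k * D) * (k : ℝ) ^ ((q : ℝ) / 2) * (2 ^ d1 * (d1.factorial : ℝ)) := h1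
            _ = _ := by ring
        exact le_of_mul_le_mul_right h5 (by positivity)
      · have hc : c1 ≤ 1 / (8 ^ d2 * 432 * (d2.factorial : ℝ)) := by
          rw [hc1]
          exact min_le_right _ _
        refine (mul_le_mul_of_nonneg_right hc hX.le).trans ?_
        rw [div_pow, hsp, ← hE2, div_div, div_le_iff₀ (by positivity)] at h1
        rw [one_div, inv_mul_le_iff₀ (by positivity)]
        have h5 : (k : ℝ) ^ E * k ^ 2 ≤ (8 ^ d2 * 432 * (d2.factorial : ℝ) * D) * k ^ 2 := by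
          calc (k : ℝ) ^ E * k ^ 2 ≤ 432 * k * (k * D) * (8 ^ d2 * (d2.factorial : ℝ)) := h1
            _ = _ := by ring
        exact le_of_mul_le_mul_right h5 (by positivity)

end Pool.MZDep
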