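import Pool.Agent.Lib.MZDep.DRep

/-! MP_301213_nt, depth-filtered growth: the hypothesis `RepU` of `MZExp.key_U` for the words of bounded depth
(copy of helper54's `Lv_rep`). -/

open HofPers Finset Pool.MZDim Pool.MZExp

namespace Pool.MZDep

theorem Lv_repD (w w' d1 d2 : ℕ) :
    RepU (DT w d1) (DT w' d2) (DT (w + w' + 1) (d1 + d2)) (w + w' + 1) := by
  classical
  obtain ⟨C, hC⟩ := formt_repD (DT w d1) (DT w' d2) w w' d1 d2 (fun l hl => mem_DT.1 hl)
    (fun l hl => mem_DT.1 hl)
  refine ⟨C, fun N hN k hk α hα i hi v hv => ?_⟩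
  set y : ℕ → List ℕ → ℤ := fun l a => if a = α then (-1) ^ l * ((k.choose l : ℕ) : ℤ) else 0 with hy
  have hY : ∀ l a, |(y l a : ℝ)| ≤ 2 ^ N := by
    intro l a
    rw [hy]
    show |(((if a = α then (-1) ^ l * ((k.choose l : ℕ) : ℤ) else 0 : ℤ)) : ℝ)| ≤ 2 ^ N
    split_ifs
    · push_cast
      rw [abs_mul, abs_pow, abs_neg, abs_one, one_pow, one_mul, abs_of_nonneg (by positivity)]
      have h1 : k.choose l ≤ 2 ^ N := (Nat.choose_le_two_pow k l).trans
        (Nat.pow_le_pow_right (by norm_num) hk)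
      exact_mod_cast h1
    · simp
  obtain ⟨b, hb1, hb2, hb3, hb4⟩ := hC N hN y (2 ^ N) (one_le_pow₀ (by norm_num)) hY i hi v hv
  have e : formt (DT w d1) N y i v = Lv N k α i v := by
    unfold formt Lv
    refine tsum_congr fun M => ?_
    congr 2
    have h1 : ∀ l, ∑ a ∈ DT w d1, (y l a : ℝ) * (beta N l M * T a (M + 1)) =
        ((-1 : ℝ) ^ l * ((k.choose l : ℕ) : ℝ) * ek N (M + 1 + l)) * T α (M + 1) := by
      intro l
      rw [Finset.sum_eq_single α]
      · rw [beta_eq_ek]
        simp only [hy, if_true]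
        push_cast
        ring
      · intro a _ ha
        simp [hy, ha]
      · intro h
        exact absurd hα h
    simp only [h1]
    rw [← Finset.sum_mul, ek_eq_sum (by omega : 1 ≤ M + 1) N k]
    congr 1
    rw [← Finset.sum_subset (Finset.range_mono (by omega : k + 1 ≤ N + 1))]
    intro l _ hl
    rw [Finset.mem_range] at hl
    rw [Nat.choose_eq_zero_of_lt (by omega)]
    simp
  refine ⟨b, fun l hl => mem_DT.2 (hb1 l hl), hb2, hb3.trans (le_of_eq ?_), by rw [hb4, e]⟩
  rw [← mul_pow]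
  norm_num

end Pool.MZDep
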