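import Pool.Agent.Lib.MZDep.DStuf
import Pool.Agent.Lib.MZExp.VDefs

/-! MP_301213_nt, depth-filtered growth: from all weights at most `K` to one weight `k ≥ K + 2`, at the cost
of one unit of depth (multiplication by the single zeta value `ζ(k - k0)`). -/

open HofPers Finset Pool.MZDim Pool.MZExp

namespace Pool.MZDep

/-- the span of the multiple zeta values of weight `k` and depth at most `d` -/
noncomputable def ZD (k d : ℕ) : Submodule ℚ ℝ :=
  Submodule.span ℚ ((fun l : List ℕ => T l 0) '' {l | Adm1 l ∧ l.sum = k ∧ l.length ≤ d})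

theorem admd_finite (k d : ℕ) : {l : List ℕ | Adm1 l ∧ l.sum = k ∧ l.length ≤ d}.Finite :=
  (WT k).finite_toSet.subset fun _ hl => mem_WT.2 ⟨hl.1, hl.2.1.le⟩

instance finite_ZD (k d : ℕ) : Module.Finite ℚ (ZD k d) := by
  unfold ZD
  exact FiniteDimensional.span_of_finite ℚ ((admd_finite k d).image _)

instance finite_HU (U : Finset (List ℕ)) : Module.Finite ℚ (HU U) := by
  unfold HU
  exact FiniteDimensional.span_of_finite ℚ (Set.finite_range _)

theorem T_mem_ZD {l : List ℕ} {k d : ℕ} (h : Adm1 l) (hk : l.sum = k) (hd : l.length ≤ d) :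
    T l 0 ∈ ZD k d :=
  Submodule.subset_span ⟨l, ⟨h, hk, hd⟩, rfl⟩

private theorem mul_mem_ZD {k m d e : ℕ} {x y : ℝ} (hx : x ∈ ZD k d) (hy : y ∈ ZD m e) :
    x * y ∈ ZD (k + m) (d + e) := by
  induction hx using Submodule.span_induction with
  | zero =>
    rw [zero_mul]
    exact Submodule.zero_mem _
  | add x x' _ _ h h' =>
    rw [add_mul]
    exact Submodule.add_mem _ h h'
  | smul q x _ h =>
    rw [smul_mul_assoc]
    exact Submodule.smul_mem _ _ h
  | mem x hx =>
    obtain ⟨l, ⟨h1, h2, h5⟩, rfl⟩ := hx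
    induction hy using Submodule.span_induction with
    | zero =>
      rw [mul_zero]
      exact Submodule.zero_mem _
    | add x x' _ _ h h' =>
      rw [mul_add]
      exact Submodule.add_mem _ h h'
    | smul q x _ h =>
      rw [mul_smul_comm]
      exact Submodule.smul_mem _ _ h
    | mem y hy =>
      obtain ⟨v, ⟨h3, h4, h6⟩, rfl⟩ := hy
      obtain ⟨L, hL1, hL2⟩ := stuffle_d l v h1 h3
      show T l 0 * T v 0 ∈ ZD (k + m) (d + e)
      rw [hL2]
      have key : ∀ L : List (List ℕ), (∀ g ∈ L, Adm1 g ∧ g.sum = l.sum + v.sum ∧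
          g.length ≤ l.length + v.length) → (L.map fun g => T g 0).sum ∈ ZD (k + m) (d + e) := by
        intro L
        induction L with
        | nil =>
          intro _
          simp
        | cons g L ih =>
          intro h
          rw [List.map_cons, List.sum_cons]
          refine Submodule.add_mem _ ?_ (ih fun g' hg' => h g' (List.mem_cons_of_mem _ hg'))
          obtain ⟨h7, h8, h9⟩ := h g List.mem_cons_self
          exact T_mem_ZD h7 (by omega) (by omega)
      exact key L hL1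

theorem ZD_mono {k d e : ℕ} (h : d ≤ e) : ZD k d ≤ ZD k e := by
  unfold ZD
  refine Submodule.span_mono (Set.image_mono ?_)
  rintro l ⟨h1, h2, h3⟩
  exact ⟨h1, h2, h3.trans h⟩

theorem finrank_ZD_mono {k d e : ℕ} (h : d ≤ e) :
    Module.finrank ℚ (ZD k d) ≤ Module.finrank ℚ (ZD k e) :=
  Submodule.finrank_mono (ZD_mono h)

theorem finrank_pass {k m d : ℕ} (h : k + 2 ≤ m) :
    Module.finrank ℚ (ZD k d) ≤ Module.finrank ℚ (ZD m (d + 1)) := by
  have h1 : Adm1 [m - k] := adm1_single.2 (by omega)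
  have h2 : T [m - k] 0 ∈ ZD (m - k) 1 := T_mem_ZD h1 (by simp) (by simp)
  have h0 : T [m - k] 0 ≠ 0 := (T_pos1 h1 0).ne'
  have h5 : k + (m - k) = m := by omega
  let f : ZD k d →ₗ[ℚ] ZD m (d + 1) :=
    { toFun := fun x => ⟨x.1 * T [m - k] 0, by
        have h3 := mul_mem_ZD x.2 h2
        rwa [h5] at h3⟩
      map_add' := fun x y => Subtype.ext (by simp [add_mul])
      map_smul' := fun q x => Subtype.ext (by simp) }
  refine LinearMap.finrank_le_finrank_of_injective (f := f) ?_
  intro x y h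
  have h6 : x.1 * T [m - k] 0 = y.1 * T [m - k] 0 := congrArg Subtype.val h
  exact Subtype.ext (mul_right_cancel₀ h0 h6)

theorem one_le_ZD {k d : ℕ} (hk : 2 ≤ k) (hd : 1 ≤ d) : 1 ≤ Module.finrank ℚ (ZD k d) := by
  have h1 : Adm1 [k] := adm1_single.2 hk
  have h2 : T [k] 0 ∈ ZD k d := T_mem_ZD h1 (by simp) (by simpa using hd)
  have : 0 < Module.finrank ℚ (ZD k d) := by
    rw [Module.finrank_pos_iff]
    exact ⟨⟨⟨_, h2⟩, 0, fun h0 => (T_pos1 h1 0).ne' (congrArg Subtype.val h0)⟩⟩
  exact this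

private theorem HU_succ_le (K d : ℕ) : HU (DT (K + 1) d) ≤ HU (DT K d) ⊔ ZD (K + 1) d := by
  unfold HU
  rw [Submodule.span_le]
  rintro x ⟨⟨l, hl⟩, rfl⟩
  obtain ⟨h1, h2, h3⟩ := mem_DT.1 hl
  rcases Nat.lt_or_ge K l.sum with h4 | h4
  · have h5 : l.sum = K + 1 := by omega
    exact Submodule.mem_sup_right (T_mem_ZD h1 h5 h3)
  · exact Submodule.mem_sup_left (Submodule.subset_span ⟨⟨l, mem_DT.2 ⟨h1, h4, h3⟩⟩, rfl⟩)

private theorem finrank_HU_le (K d : ℕ) :
    Module.finrank ℚ (HU (DT K d)) ≤ ∑ k ∈ range (K + 1), Module.finrank ℚ (ZD k d) := by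
  induction K with
  | zero =>
    rw [Finset.sum_range_one]
    have hle : HU (DT 0 d) ≤ ZD 0 d := by
      unfold HU
      rw [Submodule.span_le]
      rintro x ⟨⟨l, hl⟩, rfl⟩
      obtain ⟨h1, h2, h3⟩ := mem_DT.1 hl
      have h5 : l.sum = 0 := by omega
      exact T_mem_ZD h1 h5 h3
    exact Submodule.finrank_mono hle
  | succ K ih =>
    rw [Finset.sum_range_succ]
    calc Module.finrank ℚ (HU (DT (K + 1) d)) ≤
        Module.finrank ℚ ((HU (DT K d) ⊔ ZD (K + 1) d : Submodule ℚ ℝ)) :=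
          Submodule.finrank_mono (HU_succ_le K d)
      _ ≤ Module.finrank ℚ (HU (DT K d)) + Module.finrank ℚ (ZD (K + 1) d) :=
          Submodule.finrank_add_le_finrank_add_finrank _ _
      _ ≤ _ := by omega

/-- the dimension in the weights at most `K` against the dimension in ONE weight -/
theorem finrank_HU_pass {K k d : ℕ} (h : K + 2 ≤ k) :
    Module.finrank ℚ (HU (DT K d)) ≤ (K + 1) * Module.finrank ℚ (ZD k (d + 1)) := by
  refine (finrank_HU_le K d).trans ?_
  calc ∑ k' ∈ range (K + 1), Module.finrank ℚ (ZD k' d)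
      ≤ ∑ _k' ∈ range (K + 1), Module.finrank ℚ (ZD k (d + 1)) := by
        refine Finset.sum_le_sum fun k' hk' => finrank_pass ?_
        rw [Finset.mem_range] at hk'
        omega
    _ = (K + 1) * Module.finrank ℚ (ZD k (d + 1)) := by
        rw [Finset.sum_const, Finset.card_range, smul_eq_mul]

theorem one_le_HU (K d : ℕ) : 1 ≤ Module.finrank ℚ (HU (DT K d)) := by
  have h1 : (1 : ℝ) ∈ HU (DT K d) := by
    unfold HU
    refine Submodule.subset_span ⟨⟨[], (TC1_DT K d).1⟩, ?_⟩
    exact T_nil 0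
  have : 0 < Module.finrank ℚ (HU (DT K d)) := by
    rw [Module.finrank_pos_iff]
    exact ⟨⟨⟨1, h1⟩, 0, fun h0 => one_ne_zero (congrArg Subtype.val h0)⟩⟩
  exact this

end Pool.MZDep
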