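import Pool.Agent.Lib.MZDep.DLv
import Pool.Agent.Lib.MZDep.DCard
import Pool.Agent.Lib.MZDep.DPass
import Pool.Agent.Lib.MZExp.VKey

/-! MP_301213_nt, depth-filtered growth: the main inequality, for the span of the values of weight at most
`K` and depth at most `d1 + d2`, and for one weight. -/

open HofPers Finset Pool.MZDim Pool.MZExp

namespace Pool.MZDep

/-- the two cases of `key_U` -/
theorem either_HU (w w' d1 d2 : ℕ) :
    V (w - 1) d1 ≤ 2 * (Module.finrank ℚ (HU (DT (w + (w' + 2) + 1) (d1 + d2))) *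
      V (w' + 1) d2 + 1) ∨
    V w' d2 < 144 * Module.finrank ℚ (HU (DT (w + (w' + 2) + 1) (d1 + d2))) *
      (3 * (w + (w' + 2) + 1) + 5) := by
  rcases Nat.lt_or_ge (2 * (Module.finrank ℚ (HU (DT (w + (w' + 2) + 1) (d1 + d2))) *
      V (w' + 1) d2 + 1)) (V (w - 1) d1) with h | h
  · right
    have h1 := key_U (DT w d1) (DT (w' + 2) d2) (DTop (w' + 2) d2)
      (DT (w + (w' + 2) + 1) (d1 + d2)) (w + (w' + 2) + 1) (by omega) (TC1_DT w d1)
      (TC1_DT (w' + 2) d2) (DTop_top (w' + 2) d2) (TC1_DT _ _).1 (Lv_repD w (w' + 2) d1 d2)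
      (by
        rw [card_DT, card_DT]
        exact h)
    rw [card_DTop] at h1
    exact h1
  · exact Or.inl h

/-- the case of equal parts: `V(a, e)` and `V(b, f)` against the dimension `r` of the span of all values
of weight at most `a + 2 b + 5` and depth at most `e + 2 f` -/
theorem either_ab (a b e f : ℕ) :
    V a e ≤ 4 * Module.finrank ℚ (HU (DT (a + 2 * b + 5) (e + 2 * f))) ∨
    V b f < 144 * Module.finrank ℚ (HU (DT (a + 2 * b + 5) (e + 2 * f))) *
      (3 * (a + 2 * b + 5) + 5) := by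
  have h := either_HU (a + b + 2) b (e + f) f
  have e1 : a + b + 2 + (b + 2) + 1 = a + 2 * b + 5 := by omega
  have e2 : e + f + f = e + 2 * f := by omega
  have e3 : a + b + 2 - 1 = a + (b + 1) := by omega
  rw [e1, e2, e3] at h
  set r := Module.finrank ℚ (HU (DT (a + 2 * b + 5) (e + 2 * f))) with hr
  have hr1 : 1 ≤ r := one_le_HU _ _
  refine h.imp (fun h1 => ?_) id
  have h2 := V_mul a e (b + 1) f
  have h3 : V a e * V (b + 1) f ≤ 4 * r * V (b + 1) f := by
    have h4 : 1 ≤ V (b + 1) f := V_pos _ _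
    have h5 : 1 * 1 ≤ r * V (b + 1) f := Nat.mul_le_mul hr1 h4
    calc V a e * V (b + 1) f ≤ V (a + (b + 1)) (e + f) := h2
      _ ≤ 2 * (r * V (b + 1) f + 1) := h1
      _ ≤ 2 * (r * V (b + 1) f + r * V (b + 1) f) := by omega
      _ = _ := by ring
  exact Nat.le_of_mul_le_mul_right h3 (V_pos _ _)

/-- ONE WEIGHT: the uniform inequality in weight and depth -/
theorem dim_min {k d a b e f : ℕ} (hk : a + 2 * b + 7 ≤ k) (hd : e + 2 * f + 1 ≤ d) :
    min (108 * k * V a e) (V b f) ≤ 432 * k ^ 2 * Module.finrank ℚ (ZD k d) := by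
  have h := either_ab a b e f
  set r := Module.finrank ℚ (HU (DT (a + 2 * b + 5) (e + 2 * f))) with hr
  have h1 : r ≤ (a + 2 * b + 6) * Module.finrank ℚ (ZD k d) := by
    refine (finrank_HU_pass (K := a + 2 * b + 5) (k := k) (d := e + 2 * f) (by omega)).trans ?_
    exact Nat.mul_le_mul_left _ (finrank_ZD_mono hd)
  set D := Module.finrank ℚ (ZD k d) with hD
  have h2 : r ≤ k * D := h1.trans (Nat.mul_le_mul_right _ (by omega))
  rcases h with h3 | h3
  · refine (min_le_left _ _).trans ?_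
    calc 108 * k * V a e ≤ 108 * k * (4 * r) := Nat.mul_le_mul_left _ h3
      _ ≤ 108 * k * (4 * (k * D)) := Nat.mul_le_mul_left _ (Nat.mul_le_mul_left _ h2)
      _ = _ := by ring
  · refine (min_le_right _ _).trans ?_
    calc V b f ≤ 144 * r * (3 * (a + 2 * b + 5) + 5) := h3.le
      _ ≤ 144 * (k * D) * (3 * k) :=
        Nat.mul_le_mul (Nat.mul_le_mul_left _ h2) (by omega)
      _ = _ := by ring

/-- the symmetric case -/
theorem dim_diag {k f : ℕ} (hk : 2 ≤ k) :
    V ((k - 1) / 3 - 2) f ≤ 432 * k ^ 2 * Module.finrank ℚ (ZD k (3 * f + 1)) := by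
  have hD : 1 ≤ Module.finrank ℚ (ZD k (3 * f + 1)) := one_le_ZD hk (by omega)
  rcases Nat.lt_or_ge k 7 with h | h
  · have e1 : (k - 1) / 3 - 2 = 0 := by omega
    rw [e1, V_zero_left]
    have : 1 ≤ k ^ 2 := Nat.one_le_pow _ _ (by omega)
    calc 1 = 1 * 1 * 1 := rfl
      _ ≤ 432 * k ^ 2 * Module.finrank ℚ (ZD k (3 * f + 1)) :=
        Nat.mul_le_mul (Nat.mul_le_mul (by norm_num) this) hD
  · have h1 := dim_min (k := k) (d := 3 * f + 1) (a := (k - 1) / 3 - 2) (b := (k - 1) / 3 - 2)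
      (e := f) (f := f) (by omega) (by omega)
    have h2 : min (108 * k * V ((k - 1) / 3 - 2) f) (V ((k - 1) / 3 - 2) f) =
        V ((k - 1) / 3 - 2) f := by
      refine min_eq_right ?_
      calc V ((k - 1) / 3 - 2) f = 1 * V ((k - 1) / 3 - 2) f := (one_mul _).symm
        _ ≤ _ := Nat.mul_le_mul_right _ (by omega)
    rwa [h2] at h1

end Pool.MZDep
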