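import Pool.Agent.Lib.MZDep.DDefs

/-! MP_301213_nt, depth-filtered growth: the stuffle product of tails with the length of the words (copy of
helper41's `MZExp/XFStuf.lean`). -/

open HofPers Finset Filter Topology Pool.MZDim Pool.MZExp

namespace Pool.MZDep

private lemma dstuf_step (L : List (List ℕ)) (c : ℕ) (hL : ∀ g ∈ L, Adm1 (c :: g)) (M : ℕ) :
    ((L.map fun g => c :: g).map fun g => T g M).sum =
      (((M : ℝ) + 1) ^ c)⁻¹ * (L.map fun g => T g (M + 1)).sum +
        ((L.map fun g => c :: g).map fun g => T g (M + 1)).sum := by
  induction L with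
  | nil => simp
  | cons g L ih =>
    simp only [List.map_cons, List.sum_cons]
    rw [ih (fun q hq => hL q (List.mem_cons_of_mem _ hq)), T_step1 (hL g List.mem_cons_self)]
    ring

private lemma dstuf_lim (L : List (List ℕ)) (hL : ∀ g ∈ L, Adm1 g ∧ g ≠ []) :
    Tendsto (fun M : ℕ => (L.map fun g => T g M).sum) atTop (𝓝 0) := by
  induction L with
  | nil => simp
  | cons g L ih =>
    simp only [List.map_cons, List.sum_cons]
    have h1 := T_tendsto1 (hL g List.mem_cons_self).1 (hL g List.mem_cons_self).2
    have h2 := ih (fun q hq => hL q (List.mem_cons_of_mem _ hq))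
    have h3 := h1.add h2
    rw [add_zero] at h3
    exact h3

private lemma dstuf_const (E : ℕ → ℝ) (h : ∀ M, E M = E (M + 1))
    (ht : Tendsto E atTop (𝓝 0)) (M : ℕ) : E M = 0 := by
  have h1 : ∀ n, E n = E 0 := by
    intro n
    induction n with
    | zero => rfl
    | succ n ih => rw [← h n, ih]
  have h2 : E = fun _ => E 0 := funext h1
  have h3 : Tendsto (fun _ : ℕ => E 0) atTop (𝓝 0) := by rw [← h2]; exact ht
  rw [h1 M]
  exact tendsto_nhds_unique tendsto_const_nhds h3

private lemma dstuf_adm {b : ℕ} (hb : 1 ≤ b) {g : List ℕ} (hg : Adm1 g) (h0 : g ≠ []) :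
    Adm1 (b :: g) := by
  cases g with
  | nil => exact absurd rfl h0
  | cons c g => exact adm1_cons_cons.2 ⟨hb, hg⟩

private lemma dstuf_adm2 {b : ℕ} (hb : 2 ≤ b) {g : List ℕ} (hg : Adm1 g) : Adm1 (b :: g) := by
  cases g with
  | nil => exact adm1_single.2 hb
  | cons c g => exact adm1_cons_cons.2 ⟨by omega, hg⟩

private lemma dstuf_aux (n : ℕ) : ∀ l l' : List ℕ, l.length + l'.length = n → Adm1 l → Adm1 l' →
    ∃ L : List (List ℕ), (∀ g ∈ L, Adm1 g ∧ g.sum = l.sum + l'.sum ∧ g.length ≤ l.length + l'.length) ∧
      ∀ M : ℕ, T l M * T l' M = (L.map fun g => T g M).sum := by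
  induction n using Nat.strong_induction_on with
  | _ n ih =>
    intro l l' hn hl hl'
    cases l with
    | nil =>
      refine ⟨[l'], ?_, ?_⟩
      · intro g hg
        rw [List.mem_singleton] at hg
        subst hg
        exact ⟨hl', by simp, by simp⟩
      · intro M
        simp [T_nil]
    | cons a u =>
      cases l' with
      | nil =>
        refine ⟨[a :: u], ?_, ?_⟩
        · intro g hg
          rw [List.mem_singleton] at hg
          subst hg
          exact ⟨hl, by simp, by simp⟩
        · intro M
          simp [T_nil]
      | cons b v =>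
        simp only [List.length_cons] at hn
        have ha : 1 ≤ a := hl.head
        have hb : 1 ≤ b := hl'.head
        have hu : Adm1 u := hl.tail
        have hv : Adm1 v := hl'.tail
        obtain ⟨L1, h1, e1⟩ := ih ((a :: u).length + v.length) (by simp only [List.length_cons]; omega)
          (a :: u) v rfl hl hv
        obtain ⟨L2, h2, e2⟩ := ih (u.length + (b :: v).length) (by simp only [List.length_cons]; omega)
          u (b :: v) rfl hu hl'
        obtain ⟨L3, h3, e3⟩ := ih (u.length + v.length) (by omega) u v rfl hu hv
        have hL1 : ∀ g ∈ L1, Adm1 (b :: g) := by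
          intro g hg
          refine dstuf_adm hb (h1 g hg).1 ?_
          rintro rfl
          have := (h1 _ hg).2.1
          simp only [List.sum_cons, List.sum_nil] at this
          omega
        have hL2 : ∀ g ∈ L2, Adm1 (a :: g) := by
          intro g hg
          refine dstuf_adm ha (h2 g hg).1 ?_
          rintro rfl
          have := (h2 _ hg).2.1
          simp only [List.sum_cons, List.sum_nil] at this
          omega
        have hL3 : ∀ g ∈ L3, Adm1 ((a + b) :: g) := fun g hg =>
          dstuf_adm2 (by omega) (h3 g hg).1
        set L : List (List ℕ) := (L1.map fun g => b :: g) ++ (L2.map fun g => a :: g) ++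
          (L3.map fun g => (a + b) :: g) with hLdef
        have hL : ∀ g ∈ L, Adm1 g ∧ g.sum = (a :: u).sum + (b :: v).sum ∧
            g.length ≤ (a :: u).length + (b :: v).length := by
          intro g hg
          rw [hLdef, List.mem_append, List.mem_append, List.mem_map, List.mem_map,
            List.mem_map] at hg
          rcases hg with (⟨q, hq, rfl⟩ | ⟨q, hq, rfl⟩) | ⟨q, hq, rfl⟩
          · refine ⟨hL1 q hq, ?_⟩
            have := (h1 q hq).2
            simp only [List.sum_cons, List.length_cons] at this ⊢
            omega
          · refine ⟨hL2 q hq, ?_⟩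
            have := (h2 q hq).2
            simp only [List.sum_cons, List.length_cons] at this ⊢
            omega
          · refine ⟨hL3 q hq, ?_⟩
            have := (h3 q hq).2
            simp only [List.sum_cons, List.length_cons] at this ⊢
            omega
        refine ⟨L, hL, ?_⟩
        have hstep : ∀ M : ℕ, T (a :: u) M * T (b :: v) M - (L.map fun g => T g M).sum =
            T (a :: u) (M + 1) * T (b :: v) (M + 1) - (L.map fun g => T g (M + 1)).sum := by
          intro M
          rw [hLdef]
          simp only [List.map_append, List.sum_append]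
          rw [dstuf_step L1 b hL1 M, dstuf_step L2 a hL2 M, dstuf_step L3 (a + b) hL3 M,
            ← e1, ← e2, ← e3, T_step1 hl, T_step1 hl']
          have e4 : ((((M : ℝ) + 1) ^ (a + b))⁻¹) =
              (((M : ℝ) + 1) ^ a)⁻¹ * (((M : ℝ) + 1) ^ b)⁻¹ := by
            rw [pow_add, mul_inv]
          rw [e4]
          ring
        have hlim : Tendsto (fun M : ℕ => T (a :: u) M * T (b :: v) M -
            (L.map fun g => T g M).sum) atTop (𝓝 0) := by
          have t1 := T_tendsto1 hl (by simp)
          have t2 := T_tendsto1 hl' (by simp)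
          have t3 := dstuf_lim L (fun g hg => ⟨(hL g hg).1, by
            rintro rfl
            have := (hL _ hg).2.1
            simp only [List.sum_cons, List.sum_nil] at this
            omega⟩)
          have t4 := (t1.mul t2).sub t3
          rw [mul_zero, sub_zero] at t4
          exact t4
        intro M
        exact sub_eq_zero.1 (dstuf_const _ hstep hlim M)

theorem stuffle_d (l l' : List ℕ) (hl : Adm1 l) (hl' : Adm1 l') :
    ∃ L : List (List ℕ), (∀ g ∈ L, Adm1 g ∧ g.sum = l.sum + l'.sum ∧ g.length ≤ l.length + l'.length) ∧
      ∀ M : ℕ, T l M * T l' M = (L.map fun g => T g M).sum :=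
  dstuf_aux _ l l' rfl hl hl'

end Pool.MZDep
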