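import Pool.Agent.Lib.MZDep.DDefs

/-! MP_301213_nt, depth-filtered growth: closure properties of `RepD n k d B x` (copy of helper41's
`MZExp/XFRp.lean` with the length). -/

open HofPers Finset Pool.MZDim Pool.MZExp

namespace Pool.MZDep

private theorem adm_nilR : Adm1 [] := adm1_nil

/-- the sums over a larger set -/
private theorem sum_ext {b : List ℕ →₀ ℚ} {s : Finset (List ℕ)} (hs : b.support ⊆ s)
    (F : List ℕ → ℚ → ℝ) (h0 : ∀ l, F l 0 = 0) :
    ∑ l ∈ b.support, F l (b l) = ∑ l ∈ s, F l (b l) := by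
  refine Finset.sum_subset hs fun l _ hl => ?_
  rw [Finsupp.notMem_support_iff.1 hl, h0]

/-- sufficient conditions with sums over a larger set -/
private theorem repd_of {n k d : ℕ} {B x : ℝ} (b : List ℕ →₀ ℚ) (s : Finset (List ℕ))
    (hs : b.support ⊆ s) (h1 : ∀ l, b l ≠ 0 → Adm1 l ∧ l.sum ≤ k ∧ l.length ≤ d)
    (h2 : ∀ l, ∃ z : ℤ, ((Nat.lcmUpto n : ℕ) : ℚ) ^ k * b l = z)
    (h3 : ∑ l ∈ s, |((b l : ℚ) : ℝ)| ≤ B) (h4 : ∑ l ∈ s, ((b l : ℚ) : ℝ) * T l 0 = x) :
    RepD n k d B x := by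
  refine ⟨b, fun l hl => h1 l (Finsupp.mem_support_iff.1 hl), h2, ?_, ?_⟩
  · rw [sum_ext hs (fun _ t => |((t : ℚ) : ℝ)|) (by simp)]
    exact h3
  · rw [sum_ext hs (fun l t => ((t : ℚ) : ℝ) * T l 0) (by simp)]
    exact h4

theorem repd_T {n k d : ℕ} {l : List ℕ} (hl : Adm1 l) (hk : l.sum ≤ k) (hd : l.length ≤ d) :
    RepD n k d 1 (T l 0) := by
  classical
  refine repd_of (Finsupp.single l 1) {l} Finsupp.support_single_subset ?_ ?_ ?_ ?_
  · intro l' h
    have h2 : l' = l := by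
      by_contra h3
      exact h (Finsupp.single_eq_of_ne h3)
    rw [h2]
    exact ⟨hl, hk, hd⟩
  · intro l'
    by_cases h : l' = l
    · refine ⟨(Nat.lcmUpto n : ℤ) ^ k, ?_⟩
      rw [h, Finsupp.single_eq_same]
      push_cast
      ring
    · refine ⟨0, ?_⟩
      rw [Finsupp.single_eq_of_ne h]
      simp
  · rw [Finset.sum_singleton, Finsupp.single_eq_same]
    simp
  · rw [Finset.sum_singleton, Finsupp.single_eq_same]
    simp

theorem repd_one (n k d : ℕ) : RepD n k d 1 1 := by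
  have h := repd_T (n := n) (k := k) (d := d) adm_nilR (by simp) (by simp)
  rwa [T_nil] at h

theorem repd_zero (n k d : ℕ) : RepD n k d 0 0 := by
  refine repd_of 0 ∅ (by simp) ?_ ?_ ?_ ?_
  · intro l hl
    simp at hl
  · intro l
    exact ⟨0, by simp⟩
  · simp
  · simp

theorem repd_mono {n k k' d d' : ℕ} {B B' x : ℝ} (h : RepD n k d B x) (hk : k ≤ k') (hd : d ≤ d')
    (hB : B ≤ B') :
    RepD n k' d' B' x := by
  obtain ⟨b, h1, h2, h3, h4⟩ := h
  refine ⟨b, fun l hl => ⟨(h1 l hl).1, (h1 l hl).2.1.trans hk, (h1 l hl).2.2.trans hd⟩, ?_,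
    h3.trans hB, h4⟩
  intro l
  obtain ⟨z, hz⟩ := h2 l
  refine ⟨(Nat.lcmUpto n : ℤ) ^ (k' - k) * z, ?_⟩
  push_cast
  rw [← hz, ← mul_assoc, ← pow_add, Nat.sub_add_cancel hk]

theorem repd_add {n k d : ℕ} {B B' x y : ℝ} (h : RepD n k d B x) (h' : RepD n k d B' y) :
    RepD n k d (B + B') (x + y) := by
  classical
  obtain ⟨b, h1, h2, h3, h4⟩ := h
  obtain ⟨c, g1, g2, g3, g4⟩ := h'
  rw [sum_ext (Finset.subset_union_left (s₂ := c.support))
    (fun _ t => |((t : ℚ) : ℝ)|) (by simp)] at h3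
  rw [sum_ext (Finset.subset_union_left (s₂ := c.support))
    (fun l t => ((t : ℚ) : ℝ) * T l 0) (by simp)] at h4
  rw [sum_ext (Finset.subset_union_right (s₁ := b.support))
    (fun _ t => |((t : ℚ) : ℝ)|) (by simp)] at g3
  rw [sum_ext (Finset.subset_union_right (s₁ := b.support))
    (fun l t => ((t : ℚ) : ℝ) * T l 0) (by simp)] at g4
  refine repd_of (b + c) (b.support ∪ c.support) Finsupp.support_add ?_ ?_ ?_ ?_
  · intro l hl
    by_cases hb : b l = 0
    · have hc : c l ≠ 0 := by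
        intro hc
        apply hl
        rw [Finsupp.add_apply, hb, hc, add_zero]
      exact g1 l (Finsupp.mem_support_iff.2 hc)
    · exact h1 l (Finsupp.mem_support_iff.2 hb)
  · intro l
    obtain ⟨z, hz⟩ := h2 l
    obtain ⟨w, hw⟩ := g2 l
    refine ⟨z + w, ?_⟩
    rw [Finsupp.add_apply, mul_add, hz, hw]
    push_cast
    ring
  · refine le_trans ?_ (add_le_add h3 g3)
    rw [← Finset.sum_add_distrib]
    refine Finset.sum_le_sum fun l _ => ?_
    rw [Finsupp.add_apply]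
    push_cast
    exact abs_add_le _ _
  · rw [← h4, ← g4, ← Finset.sum_add_distrib]
    refine Finset.sum_congr rfl fun l _ => ?_
    rw [Finsupp.add_apply]
    push_cast
    ring

/-- multiplication by a rational number -/
private theorem repd_smul {n k k' d : ℕ} {B x : ℝ} (h : RepD n k d B x) (hk : k ≤ k') (t : ℚ)
    (ht : ∃ z : ℤ, ((Nat.lcmUpto n : ℕ) : ℚ) ^ (k' - k) * t = z) :
    RepD n k' d (|(t : ℝ)| * B) ((t : ℝ) * x) := by
  classical
  obtain ⟨b, h1, h2, h3, h4⟩ := h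
  refine repd_of (t • b) b.support Finsupp.support_smul ?_ ?_ ?_ ?_
  · intro l hl
    have hb : b l ≠ 0 := by
      intro hb
      apply hl
      rw [Finsupp.smul_apply, hb, smul_zero]
    obtain ⟨h5, h6, h7⟩ := h1 l (Finsupp.mem_support_iff.2 hb)
    exact ⟨h5, h6.trans hk, h7⟩
  · intro l
    obtain ⟨z, hz⟩ := h2 l
    obtain ⟨w, hw⟩ := ht
    refine ⟨w * z, ?_⟩
    rw [Finsupp.smul_apply, smul_eq_mul]
    push_cast
    rw [← hz, ← hw]
    have h5 : ((Nat.lcmUpto n : ℕ) : ℚ) ^ k' =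
        ((Nat.lcmUpto n : ℕ) : ℚ) ^ (k' - k) * ((Nat.lcmUpto n : ℕ) : ℚ) ^ k := by
      rw [← pow_add, Nat.sub_add_cancel hk]
    rw [h5]
    ring
  · refine le_trans (le_of_eq ?_) (mul_le_mul_of_nonneg_left h3 (abs_nonneg _))
    rw [Finset.mul_sum]
    refine Finset.sum_congr rfl fun l _ => ?_
    rw [Finsupp.smul_apply, smul_eq_mul]
    push_cast
    exact abs_mul _ _
  · rw [← h4, Finset.mul_sum]
    refine Finset.sum_congr rfl fun l _ => ?_
    rw [Finsupp.smul_apply, smul_eq_mul]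
    push_cast
    ring

theorem repd_zmul {n k d : ℕ} {B x : ℝ} (h : RepD n k d B x) (z : ℤ) :
    RepD n k d (|(z : ℝ)| * B) ((z : ℝ) * x) := by
  have h1 := repd_smul h (le_refl k) (z : ℚ) ⟨z, by simp⟩
  simpa using h1

theorem repd_nonneg {n k d : ℕ} {B x : ℝ} (h : RepD n k d B x) : 0 ≤ B := by
  obtain ⟨b, _, _, h3, _⟩ := h
  exact le_trans (Finset.sum_nonneg fun l _ => abs_nonneg _) h3

theorem repd_div {n k d : ℕ} {B x : ℝ} (h : RepD n k d B x) {v : ℕ} (hv1 : 1 ≤ v) (hv : v ≤ n) :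
    RepD n (k + 1) d B (x / v) := by
  have hv0 : (v : ℚ) ≠ 0 := by
    have : v ≠ 0 := by omega
    exact_mod_cast this
  have hd : v ∣ Nat.lcmUpto n := by
    unfold Nat.lcmUpto
    exact Finset.dvd_lcm (f := id) (Finset.mem_Icc.2 ⟨hv1, hv⟩)
  obtain ⟨w, hw⟩ := hd
  have h1 := repd_smul h (Nat.le_succ k) ((v : ℚ)⁻¹) ⟨w, by
    rw [Nat.succ_sub (le_refl k), Nat.sub_self, pow_one, hw]
    push_cast
    field_simp⟩
  have h2 : (((v : ℚ)⁻¹ : ℚ) : ℝ) * x = x / v := by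
    push_cast
    rw [div_eq_inv_mul]
  rw [h2] at h1
  refine repd_mono h1 le_rfl le_rfl ?_
  have h3 : |(((v : ℚ)⁻¹ : ℚ) : ℝ)| ≤ 1 := by
    push_cast
    rw [abs_of_nonneg (by positivity)]
    apply inv_le_one_of_one_le₀
    exact_mod_cast hv1
  calc |(((v : ℚ)⁻¹ : ℚ) : ℝ)| * B ≤ 1 * B := mul_le_mul_of_nonneg_right h3 (repd_nonneg h)
    _ = B := one_mul B

theorem repd_div_pow {n k d : ℕ} {B x : ℝ} (h : RepD n k d B x) {v : ℕ} (hv1 : 1 ≤ v) (hv : v ≤ n)
    (j : ℕ) : RepD n (k + j) d B (x / (v : ℝ) ^ j) := by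
  induction j with
  | zero => simpa using h
  | succ j ih =>
    have h1 := repd_div ih hv1 hv
    rw [div_div, ← pow_succ] at h1
    exact h1

theorem repd_sum {n k d : ℕ} {ι : Type*} (s : Finset ι) (B x : ι → ℝ)
    (h : ∀ i ∈ s, RepD n k d (B i) (x i)) : RepD n k d (∑ i ∈ s, B i) (∑ i ∈ s, x i) := by
  classical
  induction s using Finset.induction_on with
  | empty => simpa using repd_zero n k d
  | insert a s ha ih =>
    rw [Finset.sum_insert ha, Finset.sum_insert ha]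
    exact repd_add (h a (Finset.mem_insert_self a s))
      (ih fun i hi => h i (Finset.mem_insert_of_mem hi))

end Pool.MZDep
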